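import Pool.Agent.helper5.DH.Spec
import Pool.Agent.helper14.ED.PIC

/-!
# Project dh: PCK, the inequality of Pick
-/

set_option autoImplicit false

open Complex Metric Set Filter Topology MeasureTheory
open Pool.Agent.helper98.ILF Pool.Agent.helper16.Multibrot
open HY (UD T S hd UN RM VV SG Orb fz)

noncomputable section

namespace DH

/-- the inequality of Pick, with exponent `2` (from the sharp theorem `EDP.PIC` of helper14). -/
theorem PCK : PCK_stmt := by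
  refine ⟨2, 10, by norm_num, by norm_num, fun j hj h0 x hx hx2 => ?_⟩
  have h := EDP.PIC j hj h0 x hx
  have h1 : 1 / 2 * (1 - ‖x‖) ^ 2 ≤ ‖j x‖ * (1 - ‖x‖) ^ 2 :=
    mul_le_mul_of_nonneg_right hx2 (sq_nonneg _)
  linarith

/-- growth of univalent functions, exponent `2` (from `EDP.GRW`, `EDP.omit_small` of helper14). -/
theorem GRW : GRW_stmt := by
  refine ⟨2, 5, by norm_num, by norm_num, fun f hd hi h0 x hx => ?_⟩
  have hx1 : ‖x‖ < 1 := by simpa [UD] using hx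
  have hx0 : 0 ≤ ‖x‖ := norm_nonneg x
  have hpos : 0 < 1 - ‖x‖ := by linarith
  refine le_of_forall_gt_imp_ge_of_dense fun R hR => ?_
  have hR5 : ‖deriv f 0‖ < R / 5 := by linarith
  obtain ⟨p, hp1, hp2⟩ := EDP.omit_small f hd hi h0 (R / 5) hR5
  have h := EDP.GRW f hd hi p hp2 x hx
  rw [h0, zero_sub, norm_neg] at h
  have h2 : ‖f x‖ ≤ ‖f x - p‖ + ‖p‖ := by
    calc ‖f x‖ = ‖(f x - p) + p‖ := by rw [sub_add_cancel]
      _ ≤ _ := norm_add_le _ _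
  have h3 : (1 - ‖x‖) ^ 2 * (‖p‖ * ((1 + ‖x‖) / (1 - ‖x‖)) ^ 2) ≤ ‖p‖ * 4 := by
    rw [div_pow]
    have e : (1 - ‖x‖) ^ 2 * (‖p‖ * ((1 + ‖x‖) ^ 2 / (1 - ‖x‖) ^ 2)) = ‖p‖ * (1 + ‖x‖) ^ 2 := by
      field_simp
    rw [e]
    exact mul_le_mul_of_nonneg_left (by nlinarith) (norm_nonneg p)
  have h4 : (1 - ‖x‖) ^ 2 ≤ 1 := by nlinarith
  have h5 : (1 - ‖x‖) ^ 2 * ‖f x - p‖ ≤ ‖p‖ * 4 :=
    (mul_le_mul_of_nonneg_left h (sq_nonneg _)).trans h3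
  have h6 : (1 - ‖x‖) ^ 2 * ‖p‖ ≤ 1 * ‖p‖ := mul_le_mul_of_nonneg_right h4 (norm_nonneg p)
  have h7 : (1 - ‖x‖) ^ 2 * ‖f x‖ ≤ (1 - ‖x‖) ^ 2 * (‖f x - p‖ + ‖p‖) :=
    mul_le_mul_of_nonneg_left h2 (sq_nonneg _)
  rw [mul_add] at h7
  linarith


end DH
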