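import Pool.Agent.helper18.DH.SpecM

/-!
# Project dh (MP_5823cb_al): row d2:MDRR: closeness, right recursion (helper21)
-/

set_option autoImplicit false

open Filter Topology MeasureTheory
open scoped commutatorElement

namespace Pool.Agent.helper90.DH

open Pool.Agent.helper64.D2

theorem DRR_mono {f g : DD} {s0 s1 s2 t0 t1 t2 : ℝ} (h : Cl f g s0 s1 s2) (h0 : s0 ≤ t0) (h1 : s1 ≤ t1)
    (h2 : s2 ≤ t2) : Cl f g t0 t1 t2 := fun x =>
  ⟨(h x).1.trans h0, (h x).2.1.trans h1, (h x).2.2.trans h2⟩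

theorem DRR_exp {q : ℕ} {δ : ℝ} (hδ : 0 ≤ δ) (h : 4 * (q * δ) ≤ 1) : (1 + δ) ^ (2 * q) ≤ 2 := by
  have h1 : 1 + δ ≤ Real.exp δ := by linarith [Real.add_one_le_exp δ]
  have h2 : (1 + δ) ^ (2 * q) ≤ Real.exp δ ^ (2 * q) := pow_le_pow_left₀ (by linarith) h1 _
  have h3 : Real.exp δ ^ (2 * q) = Real.exp ((2 * q : ℕ) * δ) := by rw [Real.exp_nat_mul]
  have h4 : ((2 * q : ℕ) : ℝ) * δ ≤ 1 / 2 := by
    push_cast
    linarith
  have h5 : Real.exp ((2 * q : ℕ) * δ) ≤ Real.exp (1 / 2) := Real.exp_le_exp.2 h4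
  have h6 : Real.exp (1 / 2) ^ 2 = Real.exp 1 := by
    rw [← Real.exp_nat_mul]
    norm_num
  have h7 := Real.exp_one_lt_d9
  have h8 : 0 < Real.exp (1 / 2) := Real.exp_pos _
  have h9 : Real.exp (1 / 2) ≤ 2 := by nlinarith
  calc (1 + δ) ^ (2 * q) ≤ Real.exp δ ^ (2 * q) := h2
    _ = Real.exp ((2 * q : ℕ) * δ) := h3
    _ ≤ Real.exp (1 / 2) := h5
    _ ≤ 2 := h9

theorem DRR (hCLC : CLC_stmt) : DRR_stmt := by
  intro q T T' R R' a M δ t0 t1 t2 hq ha hM hδ hqδ hRq hRq' hrec hT hR ht0 ht1 ht2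
  have hexp := DRR_exp hδ hqδ
  have hone : 1 ≤ 1 + δ := by linarith
  have hpow : ∀ n : ℕ, n ≤ q → (1 + δ) ^ n ≤ 2 ∧ (1 + δ) ^ (2 * n) ≤ 2 := by
    intro n hn
    exact ⟨(pow_le_pow_right₀ hone (by omega)).trans hexp, (pow_le_pow_right₀ hone (by omega)).trans hexp⟩
  have hq1 : (1 : ℝ) ≤ q := by exact_mod_cast hq
  have hs1 : ∀ n : ℕ, n ≤ q → (1 + δ) ^ n * n * (2 * t1 + t0) ≤ 4 * q * (t1 + t0) := by
    intro n hn
    have h1 := (hpow n hn).1
    have h2 : (n : ℝ) ≤ q := by exact_mod_cast hn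
    have h3 : (0 : ℝ) ≤ n := Nat.cast_nonneg n
    calc (1 + δ) ^ n * n * (2 * t1 + t0) ≤ 2 * q * (2 * t1 + t0) := by gcongr
      _ ≤ 4 * q * (t1 + t0) := by nlinarith [mul_nonneg (show (0 : ℝ) ≤ q by linarith) ht0]
  set S : ℝ := 4 * q * (t1 + t0) + 2 * t2 + t1 + 2 * M * t0 + t0 with hS
  have hS0 : 0 ≤ S := by positivity
  have key : ∀ n : ℕ, n ≤ q → Cl (R' (q - n)) (R (q - n)) (2 * n * t0) ((1 + δ) ^ n * n * (2 * t1 + t0))
      ((1 + δ) ^ (2 * n) * n * S) := by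
    intro n
    induction n with
    | zero =>
      intro _ x
      rw [Nat.sub_zero, hRq, hRq']
      simp
    | succ n ih =>
      intro hn
      have ih' := ih (by omega)
      have hi : q - n = (q - (n + 1)) + 1 := by omega
      have hlt : q - (n + 1) < q := by omega
      set i := q - (n + 1) with hidef
      rw [hi] at ih'
      obtain ⟨hr1, hr2⟩ := hrec i hlt
      obtain ⟨hTa, hTa', hTc, hTd⟩ := hT i hlt
      obtain ⟨hRa, hRM⟩ := hR (i + 1) (by omega)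
      have h1 := hCLC (R (i + 1)) (R' (i + 1)) (T i) (T' i) a M δ _ _ _ t0 t1 t2 ha hM hδ hRa hTa hTa' hRM hTd
        ih' hTc
      rw [← hr1, ← hr2] at h1
      have hp1 : 1 ≤ (1 + δ) ^ (n + 1) := one_le_pow₀ hone
      have hp2 : 1 ≤ (1 + δ) ^ (2 * (n + 1)) := one_le_pow₀ hone
      refine DRR_mono h1 ?_ ?_ ?_
      · push_cast
        linarith
      · push_cast
        have h2 : 0 ≤ 2 * t1 + t0 := by linarith
        calc (1 + δ) * ((1 + δ) ^ n * n * (2 * t1 + t0)) + 2 * t1 + t0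
            = (1 + δ) ^ (n + 1) * n * (2 * t1 + t0) + 1 * (2 * t1 + t0) := by ring
          _ ≤ (1 + δ) ^ (n + 1) * n * (2 * t1 + t0) + (1 + δ) ^ (n + 1) * (2 * t1 + t0) := by gcongr
          _ = (1 + δ) ^ (n + 1) * (n + 1) * (2 * t1 + t0) := by ring
      · push_cast
        have h3 := hs1 n (by omega)
        calc (1 + δ) ^ 2 * ((1 + δ) ^ (2 * n) * n * S) + (1 + δ) ^ n * n * (2 * t1 + t0) + 2 * t2 + t1 + 2 * M * t0 + t0
            = (1 + δ) ^ (2 * (n + 1)) * n * S + ((1 + δ) ^ n * n * (2 * t1 + t0) + 2 * t2 + t1 + 2 * M * t0 + t0) := by ring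
          _ ≤ (1 + δ) ^ (2 * (n + 1)) * n * S + 1 * S := by
              rw [hS]
              linarith
          _ ≤ (1 + δ) ^ (2 * (n + 1)) * n * S + (1 + δ) ^ (2 * (n + 1)) * S := by gcongr
          _ = (1 + δ) ^ (2 * (n + 1)) * (n + 1) * S := by ring
  intro i hi
  have h1 := key (q - i) (by omega)
  have h2 : q - (q - i) = i := by omega
  rw [h2] at h1
  have h3 : ((q - i : ℕ) : ℝ) ≤ q := by exact_mod_cast Nat.sub_le q i
  have h4 : (0 : ℝ) ≤ ((q - i : ℕ) : ℝ) := Nat.cast_nonneg _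
  refine DRR_mono h1 ?_ (hs1 _ (by omega)) ?_
  · gcongr
  · have h5 := (hpow (q - i) (by omega)).2
    have h6 : S ≤ q * (6 * (t2 + t1 + (M + 1) * t0)) := by
      have e1 : (2 * t2 + t1 + 2 * M * t0 + t0) * 1 ≤ (2 * t2 + t1 + 2 * M * t0 + t0) * q := by gcongr
      have e2 : 0 ≤ (q : ℝ) * (4 * t2 + t1 + 4 * M * t0 + t0) := by positivity
      rw [hS]
      linarith
    calc (1 + δ) ^ (2 * (q - i)) * ((q - i : ℕ) : ℝ) * S ≤ 2 * q * (q * (6 * (t2 + t1 + (M + 1) * t0))) := by gcongr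
      _ = 12 * q ^ 2 * (t2 + t1 + (M + 1) * t0) := by ring

end Pool.Agent.helper90.DH
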